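import Pool.Agent.helper15.P2.SpecI

set_option autoImplicit false

open scoped ContDiff Topology ComplexConjugate
open MeasureTheory Filter Set Metric

namespace Pool.Agent.P2I

open Pool.Agent.P2

theorem EXT_glue_aux (t t' : ℂ) (ρ δ δ' : ℝ) (X Y Y' : ℂ → ℂ) (hρ : 0 < ρ) (hδ' : 0 < δ')
    (hdd : δ' ≤ δ) (ht' : ‖t'‖ = ρ)
    (hY : DifferentiableOn ℂ Y (ball t δ)) (hY' : DifferentiableOn ℂ Y' (ball t' δ'))
    (h1 : ∀ s ∈ ball t δ, s ∈ ball (0 : ℂ) ρ → Y s = X s)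
    (h2 : ∀ s ∈ ball t' δ', s ∈ ball (0 : ℂ) ρ → Y' s = X s)
    (s : ℂ) (hs : s ∈ ball t (δ / 2)) (hs' : s ∈ ball t' (δ' / 2)) : Y s = Y' s := by
  have ht'b : t' ∈ ball t δ := by
    rw [mem_ball] at hs hs' ⊢
    calc dist t' t ≤ dist t' s + dist s t := dist_triangle _ _ _
      _ = dist s t' + dist s t := by rw [dist_comm t' s]
      _ < δ' / 2 + δ / 2 := add_lt_add hs' hs
      _ ≤ δ := by linarith
  have hcl : t' ∈ closure (ball (0 : ℂ) ρ) := by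
    rw [closure_ball _ hρ.ne', mem_closedBall, dist_zero_right]
    exact ht'.le
  have hop : IsOpen (ball t δ ∩ ball t' δ') := isOpen_ball.inter isOpen_ball
  obtain ⟨q, hq1, hq2⟩ := mem_closure_iff.1 hcl _ hop ⟨ht'b, mem_ball_self hδ'⟩
  have han : AnalyticOnNhd ℂ Y (ball t δ ∩ ball t' δ') :=
    (hY.mono inter_subset_left).analyticOnNhd hop
  have han' : AnalyticOnNhd ℂ Y' (ball t δ ∩ ball t' δ') :=
    (hY'.mono inter_subset_right).analyticOnNhd hop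
  have hpre : IsPreconnected (ball t δ ∩ ball t' δ') :=
    ((convex_ball t δ).inter (convex_ball t' δ')).isPreconnected
  have hev : Y =ᶠ[𝓝 q] Y' := by
    have hn : (ball t δ ∩ ball t' δ') ∩ ball (0 : ℂ) ρ ∈ 𝓝 q :=
      (hop.inter isOpen_ball).mem_nhds ⟨hq1, hq2⟩
    filter_upwards [hn] with x hx
    rw [h1 x hx.1.1 hx.2, h2 x hx.1.2 hx.2]
  have h := han.eqOn_of_preconnected_of_eventuallyEq han' hpre hq1 hev
  apply h
  refine ⟨?_, ?_⟩
  · rw [mem_ball] at hs ⊢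
    have : 0 ≤ dist s t := dist_nonneg
    linarith
  · rw [mem_ball] at hs' ⊢
    have : 0 ≤ dist s t' := dist_nonneg
    linarith

theorem EXT_glue (t t' : ℂ) (ρ δ δ' : ℝ) (X Y Y' : ℂ → ℂ) (hρ : 0 < ρ) (hδ : 0 < δ) (hδ' : 0 < δ')
    (ht : ‖t‖ = ρ) (ht' : ‖t'‖ = ρ)
    (hY : DifferentiableOn ℂ Y (ball t δ)) (hY' : DifferentiableOn ℂ Y' (ball t' δ'))
    (h1 : ∀ s ∈ ball t δ, s ∈ ball (0 : ℂ) ρ → Y s = X s)
    (h2 : ∀ s ∈ ball t' δ', s ∈ ball (0 : ℂ) ρ → Y' s = X s)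
    (s : ℂ) (hs : s ∈ ball t (δ / 2)) (hs' : s ∈ ball t' (δ' / 2)) : Y s = Y' s := by
  rcases le_total δ' δ with h | h
  · exact EXT_glue_aux t t' ρ δ δ' X Y Y' hρ hδ' h ht' hY hY' h1 h2 s hs hs'
  · exact (EXT_glue_aux t' t ρ δ' δ X Y' Y hρ hδ h ht hY' hY h2 h1 s hs' hs).symm

theorem EXT : EXT_stmt := by
  classical
  intro ρ X hρ hX hloc
  have hloc' : ∀ t : ℂ, ∃ (δ : ℝ) (Y : ℂ → ℂ), ‖t‖ = ρ → 0 < δ ∧ DifferentiableOn ℂ Y (ball t δ) ∧
      (∀ s ∈ ball t δ, Y s ∈ ball (0 : ℂ) 1) ∧ ∀ s ∈ ball t δ, s ∈ ball (0 : ℂ) ρ → Y s = X s := by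
    intro t
    by_cases ht : ‖t‖ = ρ
    · obtain ⟨δ, Y, h⟩ := hloc t ht
      exact ⟨δ, Y, fun _ => h⟩
    · exact ⟨0, 0, fun h => absurd h ht⟩
  choose δ Y hδY using hloc'
  set U : Set ℂ := ball 0 ρ ∪ ⋃ t ∈ {t : ℂ | ‖t‖ = ρ}, ball t (δ t / 2) with hU
  have hUo : IsOpen U := isOpen_ball.union (isOpen_biUnion (fun _ _ => isOpen_ball))
  have hsub : closedBall (0 : ℂ) ρ ⊆ U := by
    intro x hx
    rw [mem_closedBall, dist_zero_right] at hx
    rcases hx.lt_or_eq with h | h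
    · left; rw [mem_ball, dist_zero_right]; exact h
    · right
      rw [mem_iUnion₂]
      exact ⟨x, h, mem_ball_self (by have := (hδY x h).1; linarith)⟩
  obtain ⟨η, hη, hηU⟩ := (isCompact_closedBall (0 : ℂ) ρ).exists_thickening_subset_open hUo hsub
  have hbU : ball (0 : ℂ) (ρ + η) ⊆ U := by
    intro x hx
    apply hηU
    rw [mem_ball, dist_zero_right] at hx
    rcases lt_or_ge ‖x‖ ρ with h | h
    · exact self_subset_thickening hη _ (by rw [mem_closedBall, dist_zero_right]; exact h.le)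
    · have hx0 : 0 < ‖x‖ := lt_of_lt_of_le hρ h
      rw [mem_thickening_iff]
      refine ⟨((ρ / ‖x‖ : ℝ) : ℂ) * x, ?_, ?_⟩
      · rw [mem_closedBall, dist_zero_right, norm_mul, Complex.norm_real, Real.norm_of_nonneg (by positivity)]
        rw [div_mul_cancel₀ _ hx0.ne']
      · have e : x - ((ρ / ‖x‖ : ℝ) : ℂ) * x = ((1 - ρ / ‖x‖ : ℝ) : ℂ) * x := by
          push_cast; ring
        rw [dist_eq_norm, e, norm_mul, Complex.norm_real, Real.norm_of_nonneg]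
        · have : (1 - ρ / ‖x‖) * ‖x‖ = ‖x‖ - ρ := by
            field_simp
          rw [this]; linarith
        · rw [sub_nonneg, div_le_one hx0]; exact h
  -- the glued function
  let Z : ℂ → ℂ := fun s => if s ∈ ball (0 : ℂ) ρ then X s else
    if h : ∃ t : ℂ, ‖t‖ = ρ ∧ s ∈ ball t (δ t / 2) then Y h.choose s else 0
  have hZX : ∀ s ∈ ball (0 : ℂ) ρ, Z s = X s := fun s hs => if_pos hs
  have hhalf : ∀ t : ℂ, ‖t‖ = ρ → ∀ s ∈ ball t (δ t / 2), s ∈ ball t (δ t) := by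
    intro t ht s hs
    rw [mem_ball] at hs ⊢
    have := (hδY t ht).1
    linarith
  have hZY : ∀ t : ℂ, ‖t‖ = ρ → ∀ s ∈ ball t (δ t / 2), Z s = Y t s := by
    intro t ht s hs
    by_cases hs0 : s ∈ ball (0 : ℂ) ρ
    · rw [hZX s hs0, (hδY t ht).2.2.2 s (hhalf t ht s hs) hs0]
    · have hex : ∃ t : ℂ, ‖t‖ = ρ ∧ s ∈ ball t (δ t / 2) := ⟨t, ht, hs⟩
      have e : Z s = Y hex.choose s := by
        simp only [Z, if_neg hs0, dif_pos hex]
      rw [e]
      obtain ⟨c1, c2⟩ := hex.choose_spec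
      exact EXT_glue hex.choose t ρ (δ hex.choose) (δ t) X (Y hex.choose) (Y t) hρ (hδY _ c1).1 (hδY t ht).1
        c1 ht (hδY _ c1).2.1 (hδY t ht).2.1 (hδY _ c1).2.2.2 (hδY t ht).2.2.2 s c2 hs
  refine ⟨ρ + η, Z, by linarith, ?_, hZX, ?_⟩
  · intro s hs
    apply DifferentiableAt.differentiableWithinAt
    rcases hbU hs with h | h
    · have h1 : DifferentiableAt ℂ X s := hX.differentiableAt (isOpen_ball.mem_nhds h)
      apply h1.congr_of_eventuallyEq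
      filter_upwards [isOpen_ball.mem_nhds h] with x hx
      exact hZX x hx
    · rw [mem_iUnion₂] at h
      obtain ⟨t, ht, hst⟩ := h
      have h1 : DifferentiableAt ℂ (Y t) s :=
        (hδY t ht).2.1.differentiableAt (isOpen_ball.mem_nhds (hhalf t ht s hst))
      apply h1.congr_of_eventuallyEq
      filter_upwards [isOpen_ball.mem_nhds hst] with x hx
      exact hZY t ht x hx
  · intro s hs hs0
    rcases hbU hs with h | h
    · exact absurd h hs0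
    · rw [mem_iUnion₂] at h
      obtain ⟨t, ht, hst⟩ := h
      rw [hZY t ht s hst]
      exact (hδY t ht).2.2.1 s (hhalf t ht s hst)

end Pool.Agent.P2I
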